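import Pool.Agent.Helper96.CT.Stmts2

/-! # Row SB: a tree with a vertex adjacent to all others is a star -/

set_option autoImplicit false

namespace Pool.Agent.Helper25.CT

open SimpleGraph Pool.Agent.Helper96.CT

theorem sb_no {W : Type} (T : SimpleGraph W) (c : W) (hT : T.IsTree)
    (hc : ∀ w, w ≠ c → T.Adj c w) (a b : W) (ha : a ≠ c) (hb : b ≠ c) : ¬ T.Adj a b := by
  intro hab
  have h1 := hc a ha
  have h2 := hc b hb
  have p1 : (Walk.cons h2 Walk.nil : T.Walk c b).IsPath := by
    rw [Walk.cons_isPath_iff]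
    exact ⟨Walk.IsPath.nil, by simpa using hb.symm⟩
  have p2 : (Walk.cons h1 (Walk.cons hab Walk.nil) : T.Walk c b).IsPath := by
    rw [Walk.cons_isPath_iff, Walk.cons_isPath_iff]
    refine ⟨⟨Walk.IsPath.nil, by simpa using hab.ne⟩, ?_⟩
    simp only [Walk.support_cons, Walk.support_nil, List.mem_cons, List.not_mem_nil, or_false,
      not_or]
    exact ⟨ha.symm, hb.symm⟩
  have h3 := hT.isAcyclic.path_unique ⟨_, p1⟩ ⟨_, p2⟩
  have h4 := congrArg (fun p : T.Path c b => p.1.length) h3
  simp at h4

theorem st_SB : ST_SB := by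
  intro W V _ T F c hT hc v I hI hcard
  classical
  have hno := sb_no T c hT hc
  have hc1 : Fintype.card {w : W // w ≠ c} ≤ Fintype.card I := by
    rw [Fintype.card_coe]
    have : Fintype.card {w : W // w ≠ c} = Fintype.card W - 1 := by
      simp [Fintype.card_subtype_compl]
    rw [this]
    exact hcard
  obtain ⟨e⟩ := Function.Embedding.nonempty_of_card_le hc1
  have hvI : ∀ x ∈ I, x ≠ v := fun x hx h => (hI x hx).ne h.symm
  obtain ⟨φ, hφ⟩ : ∃ φ : W → V, φ = fun w => if h : w = c then v else (e ⟨w, h⟩ : V) :=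
    ⟨_, rfl⟩
  have hφc : φ c = v := by rw [hφ]; simp
  have hφn : ∀ w (h : w ≠ c), φ w = (e ⟨w, h⟩ : V) := by
    intro w h
    rw [hφ]
    simp [h]
  have hφI : ∀ w, w ≠ c → φ w ∈ I := by
    intro w h
    rw [hφn w h]
    exact (e ⟨w, h⟩).2
  refine ⟨⟨⟨φ, ?_⟩, ?_⟩⟩
  · intro a b hab
    by_cases ha : a = c
    · subst ha
      rw [hφc]
      exact hI _ (hφI b hab.ne.symm)
    · by_cases hb : b = c
      · subst hb
        rw [hφc]
        exact (hI _ (hφI a ha)).symm
      · exact absurd hab (hno a b ha hb)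
  · intro a b hab
    change φ a = φ b at hab
    by_cases ha : a = c
    · by_cases hb : b = c
      · rw [ha, hb]
      · rw [ha, hφc] at hab
        exact absurd hab.symm (hvI _ (hφI b hb))
    · by_cases hb : b = c
      · rw [hb, hφc] at hab
        exact absurd hab (hvI _ (hφI a ha))
      · rw [hφn a ha, hφn b hb] at hab
        have h5 := e.injective (Subtype.ext hab)
        exact congrArg Subtype.val h5

end Pool.Agent.Helper25.CT
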